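import Mathlib
import Pool.Agent.Helper142.Kib.Defs
import Pool.Agent.Helper142.Kib.Statement
import Pool.Agent.N551.BK.Fin

/-!
# MP_7548d4_gt: the Busemann type inequality for `k`-intersection bodies, in full

For all integers `n`, `k` with `2 ≤ k < n / 2` and all origin-symmetric star bodies `K`, `L` of
`ℝⁿ` such that `L` is the `k`-intersection body of `K`, `|L|^k ≤ C_{n,k} |K|^{n-k}` with the sharp
constant `C_{n,k} = κ_{n-k}^n κ_k^{-n} κ_n^{2k-n}` of the question.

Sketch of proof.  Put `m = n - k`, let `p`, `r` be the gauges of `K`, `L`, normalised so that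
`|K| = κ_n`, and let `g` be the Fourier transform of `exp (-π p²)`.

* The section condition gives `c ∫ g r^{-m} = ∫ r^{-k} exp (-π r²)`, with a constant `c` that
  can be read off from the ball.
* The sharp Hausdorff-Young inequality of Babenko and Beckner (proved here from the two point
  inequality) gives `∫ |g|^Q ≤ Q^{-n/2}` for all `Q > 2`, and Parseval's formula gives
  `∫ g(x) g(a x) dx = (1 + a²)^{-n/2}` for `0 < a < 1`.
* With `w = exp (-π μ² r²)`, `h = g - w`, and `μ` such that `∫ h r^{-m} = 0`: convexity of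
  `|t|^Q` compares `∫ |g|^Q` and `∫ w^Q`, and
  `∫_0^1 a^{m-1} ∫ h(x) h(a x) dx da = (n - 2k)/2 ∫ (∫_1^∞ h(b x) b^{k-1} db)² dx ≥ 0`.
  Adding these relations up with the right weights in `a = √(Q - 1)`, the terms linear in `h`
  cancel and `∫ w ≤ 1` follows, which is the claimed inequality.
-/

namespace Pool.Agent.Results.MP_7548d4_gt.AllDimensions

open MeasureTheory Pool.Agent.Helper142.Kib

/-- **Theorem.** The inequality of Q1 holds for all `2 ≤ k < n / 2`. -/
theorem result (n k : ℕ) (hk : 2 ≤ k) (hkn : 2 * k < n)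
    (K L : Set (EuclideanSpace ℝ (Fin n))) (hK : IsSymStarBody K) (hL : IsSymStarBody L)
    (h : St.HasIntersectionBody k K L) :
    St.vol L ^ k ≤ St.Cnk n k * St.vol K ^ (n - k) := by
  rw [St.has_iff] at h
  unfold St.vol
  have h1 := Pool.Agent.N551.BK.RES k n (by omega) hkn K L hK hL h
  have kap_pos : ∀ p : ℕ, 0 < kap p := by
    intro p
    unfold kap
    have : 0 < Real.Gamma (1 + (p : ℝ) / 2) := Real.Gamma_pos_of_pos (by positivity)
    positivity
  have e : kap (n - k) ^ n / kap k ^ n * kap n ^ k / kap n ^ (n - k) = St.Cnk n k := by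
    have k1 := (kap_pos k).ne'
    have k2 := (kap_pos n).ne'
    unfold St.Cnk
    have e1 : 2 * (k : ℤ) - (n : ℤ) = (k : ℤ) - ((n - k : ℕ) : ℤ) := by omega
    rw [e1, zpow_sub₀ k2, zpow_neg, zpow_natCast, zpow_natCast, zpow_natCast, zpow_natCast]
    field_simp
  rw [e] at h1
  exact h1

end Pool.Agent.Results.MP_7548d4_gt.AllDimensions
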